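import Pool.Agent.Helper883_Good.Pieces

/-!
No graph whose edge set is a countable union of comparability graphs is good, even if this is
required only inside the classes of a partition of the vertices into at most continuum many
classes.
-/

namespace Pool.Agent.Results.MP_e45b43_lc.Comparability

open Pool.Agent.Helper883_Good

universe u

/-- Let the vertices of `G` be partitioned into at most continuum many classes (the fibres of
`f`), and suppose that inside the class of `r` the edges of `G` are exactly the pairs comparable
in at least one of countably many transitive relations `R r n`. Then `G` is not good: either it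
has an uncountable clique, or its edges can be coloured with countably many colours without an
infinite monochromatic clique. Nothing is assumed about the edges between different classes. -/
theorem result {V : Type u} (G : SimpleGraph V) (f : V → ℕ → Bool)
    (R : (ℕ → Bool) → ℕ → V → V → Prop)
    (htrans : ∀ r n x y z, R r n x y → R r n y z → R r n x z)
    (hG : ∀ x y, f x = f y → (G.Adj x y ↔ ∃ n, R (f x) n x y ∨ R (f x) n y x)) : ¬ Good G := by
  intro hgood
  let R' : (ℕ → Bool) → ℕ → V → V → Prop := fun r n x y => f x = r ∧ f y = r ∧ R r n x y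
  have hirr : ∀ r n x, ¬ R' r n x x := by
    rintro r n x ⟨rfl, _, h⟩
    exact G.irrefl ((hG x x rfl).2 ⟨n, Or.inl h⟩)
  let E : (ℕ → Bool) → ℕ → SimpleGraph V := fun r n =>
    { Adj := fun x y => R' r n x y ∨ R' r n y x
      symm := ⟨fun _ _ h => h.symm⟩
      loopless := ⟨fun x h => hirr r n x (h.elim id id)⟩ }
  have hle : ∀ r n x y, (E r n).Adj x y → G.Adj x y := by
    intro r n x y h
    rcases h with ⟨hx, hy, h⟩ | ⟨hy, hx, h⟩
    · subst hx
      exact (hG x y hy.symm).2 ⟨n, Or.inl h⟩
    · subst hx
      exact (hG x y hy.symm).2 ⟨n, Or.inr h⟩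
  have hcov : ∀ x y, G.Adj x y → f x = f y → ∃ n, (E (f x) n).Adj x y := by
    intro x y hadj hf
    obtain ⟨n, h | h⟩ := (hG x y hf).1 hadj
    · exact ⟨n, Or.inl ⟨rfl, hf.symm, h⟩⟩
    · exact ⟨n, Or.inr ⟨hf.symm, rfl, h⟩⟩
  obtain ⟨r, n, hgood'⟩ := hgood.exists_of_pieces f E hle hcov
  exact not_good_of_comparable (E r n) (R' r n)
    (fun x y z h1 h2 => ⟨h1.1, h2.2.1, htrans r n x y z h1.2.2 h2.2.2⟩)
    (fun x y => Iff.rfl) hgood'

end Pool.Agent.Results.MP_e45b43_lc.Comparability
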