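import Pool.Agent.Helper883_Stable.Main
import Pool.Agent.Helper883_Good.Pieces

/-!
# Infinite half graphs in the pieces of a good graph
-/

namespace Pool.Agent.Results.MP_e45b43_lc.HalfGraph

open Pool.Agent.Helper883_Good

universe u

/-- Let `G` be a good graph, that is, all cliques of `G` are countable and every colouring of its
edges by natural numbers has an infinite monochromatic clique. Let the vertices be partitioned
into at most continuum many classes (the fibres of `f`), and let the edges inside the class of
`r` be covered by countably many subgraphs `E r n` of `G`. Then some `E r n` contains an infinite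
half graph: there are vertices `a i`, `b j` such that `a i` and `b j` are adjacent in `E r n`
exactly when `i ≤ j`. -/
theorem result {V : Type u} {G : SimpleGraph V} (hG : Good G) (f : V → ℕ → Bool)
    (E : (ℕ → Bool) → ℕ → SimpleGraph V)
    (hle : ∀ r n x y, (E r n).Adj x y → G.Adj x y)
    (hcov : ∀ x y, G.Adj x y → f x = f y → ∃ n, (E (f x) n).Adj x y) :
    ∃ (r : ℕ → Bool) (n : ℕ) (a b : ℕ → V), ∀ i j, (E r n).Adj (a i) (b j) ↔ i ≤ j := by
  obtain ⟨r, n, hgood⟩ := hG.exists_of_pieces f E hle hcov
  obtain ⟨_, a, b, h⟩ := Helper883_Stable.exists_piece_hasHalfGraph hgood (fun _ => E r n)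
    (fun _ _ _ h => h) (fun _ _ h => ⟨0, h⟩)
  exact ⟨r, n, a, b, h⟩

end Pool.Agent.Results.MP_e45b43_lc.HalfGraph
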