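import Pool.Agent.Helper883_Good.Structure

/-!
A structure theorem for good graphs.
-/

namespace Pool.Agent.Results.MP_e45b43_lc.Structure

open Pool.Agent.Helper883_Good

universe u

/-- Let `G` be good, let `r` be any well-order of its vertices, let the relations `E n` cover its
edges (directed upwards), let `b` be any colouring of pairs and `h m` any maps of the vertices.
Then there are an infinite clique `x 0, x 1, ...`, increasing for `r`, whose pairs all belong to
one relation `E n` and have one colour, and two sequences `d`, `y` of smaller vertices with the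
following properties. Whenever `h m` is regressive, the images of the clique are pairwise
nonadjacent. The `d i` are increasing and pairwise nonadjacent, `d i` is `E n`-joined to `x i` but
to no later `x j`. The `y i` are distinct and pairwise nonadjacent, `y i` is `E n`-joined to `x i`
but to no earlier `x j`. Finally `d i` lies below `y j` for `i < j`, and `d i` and `y i` are equal
or adjacent. -/
theorem result {V : Type u} (G : SimpleGraph V) (hG : Good G) (r : V → V → Prop)
    [IsWellOrder V r] (E : ℕ → V → V → Prop)
    (hE : ∀ z x, r z x → (G.Adj z x ↔ ∃ n, E n z x))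
    (b : V → V → ℕ) (h : ℕ → V → V) :
    ∃ (n k : ℕ) (x d y : ℕ → V),
      (∀ i j, i < j → r (x i) (x j) ∧ G.Adj (x i) (x j) ∧ E n (x i) (x j) ∧
        b (x i) (x j) = k) ∧
      (∀ m i j, i < j → r (h m (x i)) (x i) → r (h m (x j)) (x j) →
        ¬ G.Adj (h m (x i)) (h m (x j))) ∧
      (∀ i, r (d i) (x 0) ∧ E n (d i) (x i)) ∧
      (∀ i j, i < j → r (d i) (d j) ∧ ¬ G.Adj (d i) (d j) ∧ ¬ E n (d i) (x j)) ∧
      (∀ i, r (y i) (x 0) ∧ E n (y i) (x i) ∧ (d i = y i ∨ G.Adj (d i) (y i))) ∧
      (∀ i j, i < j → y i ≠ y j ∧ ¬ G.Adj (y i) (y j) ∧ ¬ E n (y j) (x i) ∧ r (d i) (y j)) :=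
  structure_of_good hG r E hE b h

end Pool.Agent.Results.MP_e45b43_lc.Structure
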