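import Pool.Agent.Helper883_Universal.Main

/-!
# A graph with cliques of order type at most `ω₁ + 1` forcing uncountable monochromatic cliques
-/

namespace Pool.Agent.Results.MP_e45b43_lc.UncountableMono

open Cardinal

universe u

/-- For every infinite cardinal `κ` there is a graph `G` on a well-ordered vertex set such that
all cliques of `G` have cardinality at most `κ⁺` (more precisely, if `y < x` are elements of a
clique, then at most `κ` elements of the clique lie below `y`, so that cliques have order type at
most `κ⁺ + 1`), and such that every colouring of the edges of `G` with at most `κ` colours has a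
clique of cardinality greater than `κ` with a greatest element (hence of order type exactly
`κ⁺ + 1`) all of whose edges have the same colour. -/
theorem result (κ : Cardinal.{u}) (hκ : ℵ₀ ≤ κ) :
    ∃ (V : Type u) (_ : LinearOrder V) (_ : WellFoundedLT V) (G : SimpleGraph V),
      (∀ S : Set V, G.IsClique S → #S ≤ Order.succ κ) ∧
      (∀ S : Set V, G.IsClique S → ∀ x ∈ S, ∀ y ∈ S, y < x → #{z // z ∈ S ∧ z < y} ≤ κ) ∧
      ∀ (ι : Type u) (c : G.edgeSet → ι), #ι ≤ κ →
        ∃ S : Set V, κ < #S ∧ (∃ x ∈ S, ∀ y ∈ S, y ≤ x) ∧ G.IsClique S ∧
          ∃ k, ∀ e : G.edgeSet, (∀ v ∈ (e : Sym2 V), v ∈ S) → c e = k :=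
  Helper883_Universal.main κ hκ

end Pool.Agent.Results.MP_e45b43_lc.UncountableMono
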